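import Pool.Graph.R_seed8.TH549.CK.Fin

/-!
# Smoothing of a curve with `m` nodes whose normalisation has genus `h`

`𝕂` is the function field of a smooth projective curve over `F`, given with its places: `C.E x` is the
expansion of the functions at the place `x` with respect to a local parameter.  The curve with the
nodes `p i ~ q i` is smoothed over `F[[t]]`, the equation at each node being `u v = t`.
The functions of the smoothing are the power series `f = ∑ f_k t^k` with coefficients in `𝕂` such that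
`f_k` is regular outside `o` and the nodes and the expansions at `p i` and `q i` agree: at `p i` the
series is `∑ E(f_k) u^k v^k` (as `t = u v`, `u` the parameter at `p i`), at `q i` the roles of `u`
and `v` are exchanged.
-/

set_option autoImplicit false

namespace Pool.Agent.H369.SM

open Pool.Agent.TH549.CK TensorProduct

/-- a function field with places -/
structure Crv (F 𝕂 P : Type) [Field F] [Field 𝕂] [Algebra F 𝕂] where
  /-- the expansion at a place -/
  E : P → 𝕂 →+* LaurentSeries F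
  /-- constants -/
  const : ∀ (x : P) (c : F), E x (algebraMap F 𝕂 c) = HahnSeries.C c

/-- the place `o` (infinity) and the `2 m` different places `p i`, `q i` -/
structure Nodes (P : Type) (m : ℕ) where
  /-- infinity -/
  o : P
  /-- the first point of the node -/
  p : Fin m → P
  /-- the second point of the node -/
  q : Fin m → P
  inj : Function.Injective (Sum.elim p q)
  po : ∀ i, p i ≠ o
  qo : ∀ i, q i ≠ o

section
variable {F 𝕂 P : Type} [Field F] [Field 𝕂] [Algebra F 𝕂]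

theorem Crv.E_smul (C : Crv F 𝕂 P) (x : P) (c : F) (f : 𝕂) : C.E x (c • f) = c • C.E x f := by
  rw [Algebra.smul_def, map_mul, C.const, HahnSeries.C_mul_eq_smul]

/-- the Riemann-Roch space `L(D)` -/
def Crv.L (C : Crv F 𝕂 P) (D : P → ℤ) : Submodule F 𝕂 where
  carrier := {f | ∀ (x : P) (k : ℤ), k < -(D x) → (C.E x f).coeff k = 0}
  add_mem' := fun {f f'} hf hf' x k hk => by
    rw [map_add, HahnSeries.coeff_add, hf x k hk, hf' x k hk, add_zero]
  zero_mem' := fun x k _ => by rw [map_zero, HahnSeries.coeff_zero]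
  smul_mem' := fun c f hf x k hk => by
    rw [C.E_smul, HahnSeries.coeff_smul, hf x k hk, smul_zero]

theorem Crv.mem_L {C : Crv F 𝕂 P} {D : P → ℤ} {f : 𝕂} :
    f ∈ C.L D ↔ ∀ (x : P) (k : ℤ), k < -(D x) → (C.E x f).coeff k = 0 := Iff.rfl

/-- Riemann-Roch for divisors of degree `≥ 2 h - 1` on a curve of genus `h` -/
def Crv.RR (C : Crv F 𝕂 P) (h : ℕ) : Prop :=
  ∀ D : P →₀ ℤ, 2 * (h : ℤ) ≤ (D.sum fun _ k => k) + 1 →
    (Module.finrank F (C.L D) : ℤ) = (D.sum fun _ k => k) + 1 - h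

/-- `∑ f_k t^k` at a node branch, `t = u v`: `∑ E(f_k) u^k v^k`; the outer variable is `v`, the inner
one is `u` -/
noncomputable def Crv.EvL (C : Crv F 𝕂 P) (x : P) : PowerSeries 𝕂 →+* PowerSeries (LaurentSeries F) :=
  (PowerSeries.rescale (HahnSeries.single (1 : ℤ) (1 : F) : LaurentSeries F)).comp
    (PowerSeries.map (C.E x))

/-- the expansion of the coefficients at a place -/
noncomputable def Crv.Ec (C : Crv F 𝕂 P) (x : P) : PowerSeries 𝕂 →+* PowerSeries (LaurentSeries F) :=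
  PowerSeries.map (C.E x)

/-- the functions on the smoothing. (`P7.th F` is the inclusion of `F[[u]][[v]]` in `F((u))[[v]]`.) -/
noncomputable def MM (C : Crv F 𝕂 P) {m : ℕ} (N : Nodes P m) : Subring (PowerSeries 𝕂) where
  carrier := {f | (∀ x : P, x ≠ N.o → (∀ i, x ≠ N.p i) → (∀ i, x ≠ N.q i) →
      ∃ y : PowerSeries (PowerSeries F), P7.th F y = C.Ec x f) ∧
    ∀ i, ∃ y : PowerSeries (PowerSeries F), P7.th F y = C.EvL (N.p i) f ∧
      P7.th F (swp y) = C.EvL (N.q i) f}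
  mul_mem' := fun {f g} hf hg => ⟨fun x h1 h2 h3 => by
      obtain ⟨y, hy⟩ := hf.1 x h1 h2 h3
      obtain ⟨z, hz⟩ := hg.1 x h1 h2 h3
      exact ⟨y * z, by rw [map_mul, map_mul, hy, hz]⟩, fun i => by
      obtain ⟨y, hy, hy'⟩ := hf.2 i
      obtain ⟨z, hz, hz'⟩ := hg.2 i
      exact ⟨y * z, by rw [map_mul, map_mul, hy, hz], by rw [map_mul, map_mul, map_mul, hy', hz']⟩⟩
  one_mem' := ⟨fun x _ _ _ => ⟨1, by rw [map_one, map_one]⟩, fun i => ⟨1, by rw [map_one, map_one],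
    by rw [map_one, map_one, map_one]⟩⟩
  add_mem' := fun {f g} hf hg => ⟨fun x h1 h2 h3 => by
      obtain ⟨y, hy⟩ := hf.1 x h1 h2 h3
      obtain ⟨z, hz⟩ := hg.1 x h1 h2 h3
      exact ⟨y + z, by rw [map_add, map_add, hy, hz]⟩, fun i => by
      obtain ⟨y, hy, hy'⟩ := hf.2 i
      obtain ⟨z, hz, hz'⟩ := hg.2 i
      exact ⟨y + z, by rw [map_add, map_add, hy, hz], by rw [map_add, map_add, map_add, hy', hz']⟩⟩
  zero_mem' := ⟨fun x _ _ _ => ⟨0, by rw [map_zero, map_zero]⟩, fun i => ⟨0, by rw [map_zero, map_zero],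
    by rw [map_zero, map_zero, map_zero]⟩⟩
  neg_mem' := fun {f} hf => ⟨fun x h1 h2 h3 => by
      obtain ⟨y, hy⟩ := hf.1 x h1 h2 h3
      exact ⟨-y, by rw [map_neg, map_neg, hy]⟩, fun i => by
      obtain ⟨y, hy, hy'⟩ := hf.2 i
      exact ⟨-y, by rw [map_neg, map_neg, hy], by rw [map_neg, map_neg, map_neg, hy']⟩⟩

/-- pole of order at most `n` at infinity -/
def Bd (C : Crv F 𝕂 P) {m : ℕ} (N : Nodes P m) (n : ℕ) (f : PowerSeries 𝕂) : Prop :=
  ∀ (k : ℕ) (l : ℤ), l < -(n : ℤ) → (C.E N.o (PowerSeries.coeff k f)).coeff l = 0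

theorem Bd.mono {C : Crv F 𝕂 P} {m : ℕ} {N : Nodes P m} {n n' : ℕ} {f : PowerSeries 𝕂}
    (h : Bd C N n f) (hn : n ≤ n') : Bd C N n' f := fun k l hl => h k l (by omega)

theorem Bd.add {C : Crv F 𝕂 P} {m : ℕ} {N : Nodes P m} {n : ℕ} {f g : PowerSeries 𝕂}
    (h : Bd C N n f) (h' : Bd C N n g) : Bd C N n (f + g) := fun k l hl => by
  rw [map_add, map_add, HahnSeries.coeff_add, h k l hl, h' k l hl, add_zero]

theorem Bd.neg {C : Crv F 𝕂 P} {m : ℕ} {N : Nodes P m} {n : ℕ} {f : PowerSeries 𝕂}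
    (h : Bd C N n f) : Bd C N n (-f) := fun k l hl => by
  rw [map_neg, map_neg, HahnSeries.coeff_neg, h k l hl, neg_zero]

theorem Bd.mul {C : Crv F 𝕂 P} {m : ℕ} {N : Nodes P m} {n n' : ℕ} {f g : PowerSeries 𝕂}
    (h : Bd C N n f) (h' : Bd C N n' g) : Bd C N (n + n') (f * g) := fun k l hl => by
  rw [PowerSeries.coeff_mul, map_sum, HahnSeries.coeff_sum]
  refine Finset.sum_eq_zero fun ij _ => ?_
  rw [map_mul, P5.coeff_mul_bd (n := (n : ℤ)) (m := (n' : ℤ)) (h ij.1) (h' ij.2), Finset.Icc_eq_empty,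
    Finset.sum_empty]
  push_cast at hl
  omega

/-- the functions with bounded poles at infinity -/
noncomputable def MB (C : Crv F 𝕂 P) {m : ℕ} (N : Nodes P m) : Subring (PowerSeries 𝕂) where
  carrier := {f | f ∈ MM C N ∧ ∃ n, Bd C N n f}
  mul_mem' := fun {x y} hx hy => ⟨mul_mem hx.1 hy.1, by
    obtain ⟨n, hn⟩ := hx.2
    obtain ⟨m, hm⟩ := hy.2
    exact ⟨n + m, hn.mul hm⟩⟩
  one_mem' := ⟨one_mem _, 0, fun k l hl => by
    rw [PowerSeries.coeff_one]
    split_ifs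
    · rw [map_one, HahnSeries.coeff_one, if_neg (by push_cast at hl; omega)]
    · rw [map_zero, HahnSeries.coeff_zero]⟩
  add_mem' := fun {x y} hx hy => ⟨add_mem hx.1 hy.1, by
    obtain ⟨n, hn⟩ := hx.2
    obtain ⟨m, hm⟩ := hy.2
    exact ⟨n + m, (hn.mono (by omega)).add (hm.mono (by omega))⟩⟩
  zero_mem' := ⟨zero_mem _, 0, fun k l _ => by rw [map_zero, map_zero, HahnSeries.coeff_zero]⟩
  neg_mem' := fun {x} hx => ⟨neg_mem hx.1, by
    obtain ⟨n, hn⟩ := hx.2
    exact ⟨n, hn.neg⟩⟩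

theorem mem_MB {C : Crv F 𝕂 P} {m : ℕ} {N : Nodes P m} {f : PowerSeries 𝕂} :
    f ∈ MB C N ↔ f ∈ MM C N ∧ ∃ n, Bd C N n f := Iff.rfl

/-- the constants: power series in `t` with coefficients in `F` -/
noncomputable def oh (F 𝕂 : Type) [Field F] [Field 𝕂] [Algebra F 𝕂] : PowerSeries F →+* PowerSeries 𝕂 :=
  PowerSeries.map (algebraMap F 𝕂)

/-- the coefficient of `w ^ k` in the expansion at infinity, a power series in `t` -/
noncomputable def cinf (C : Crv F 𝕂 P) {m : ℕ} (N : Nodes P m) (f : PowerSeries 𝕂) (k : ℤ) :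
    PowerSeries F :=
  PowerSeries.mk fun j => (C.E N.o (PowerSeries.coeff j f)).coeff k

/-- the coordinate ring of the smooth curve, over the fraction field `K` of `F[[t]]` -/
noncomputable def RK (K : Type) [Field K] [Algebra (PowerSeries F) K] (C : Crv F 𝕂 P) {m : ℕ}
    (N : Nodes P m) : Subalgebra K (LaurentSeries K) :=
  Algebra.adjoin K {h | ∃ f ∈ MB C N, ∀ k, h.coeff k = algebraMap (PowerSeries F) K (cinf C N f k)}

/-- the divisor `n o` -/
noncomputable def nO {m : ℕ} (N : Nodes P m) (n : ℕ) : P →₀ ℤ := Finsupp.single N.o (n : ℤ)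

/-- `f ⊗ h ↦ (1/j!) (d/dw)^j f * h` at the place `x` -/
noncomputable def sjE (C : Crv F 𝕂 P) (x : P) (j : ℕ) : 𝕂 ⊗[F] 𝕂 →ₗ[F] LaurentSeries F :=
  TensorProduct.lift (LinearMap.mk₂ F
    (fun f h : 𝕂 => LaurentSeries.hasseDeriv F j (C.E x f) * C.E x h)
    (fun f f' h => by rw [map_add, map_add, add_mul])
    (fun c f h => by
      rw [C.E_smul, map_smul, ← HahnSeries.C_mul_eq_smul, ← HahnSeries.C_mul_eq_smul, mul_assoc])
    (fun f h h' => by rw [map_add, mul_add])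
    (fun c f h => by
      rw [C.E_smul, ← HahnSeries.C_mul_eq_smul, ← HahnSeries.C_mul_eq_smul]; ring))

/-- `f ⊗ h ↦ (coefficient of u^a of f at x) * (coefficient of v^b of h at y)` -/
noncomputable def nn (C : Crv F 𝕂 P) (x y : P) (a b : ℤ) : 𝕂 ⊗[F] 𝕂 →ₗ[F] F :=
  TensorProduct.lift (LinearMap.mk₂ F
    (fun f h : 𝕂 => (C.E x f).coeff a * (C.E y h).coeff b)
    (fun f f' h => by rw [map_add, HahnSeries.coeff_add, add_mul])
    (fun c f h => by rw [C.E_smul, HahnSeries.coeff_smul, smul_mul_assoc])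
    (fun f h h' => by rw [map_add, HahnSeries.coeff_add, mul_add])
    (fun c f h => by rw [C.E_smul, HahnSeries.coeff_smul, mul_smul_comm]))

/-- the ring homomorphism `o(t) ↦ o(u v)` -/
noncomputable def uv (F : Type) [Field F] : PowerSeries F →+* PowerSeries (PowerSeries F) :=
  (PowerSeries.rescale (PowerSeries.X : PowerSeries F)).comp
    (PowerSeries.map (PowerSeries.C : F →+* PowerSeries F))

end

section statements

/-- **SM1** (coefficients).  `th y = EvL(p) f` means that the coefficient of `u^a v^b` in `y` is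
`(E_p f_b).coeff (a - b)` and that `(E_p f_b).coeff l = 0` for `l < -b`; see `P7.exists_th`,
`P7.coeff_th` and `HahnSeries.coeff_single_mul` (`rescale` multiplies the `b`-th coefficient by
`(single 1 1) ^ b = single b 1`). -/
def S_mem : Prop := ∀ (F 𝕂 P : Type) [Field F] [Field 𝕂] [Algebra F 𝕂] (C : Crv F 𝕂 P) (m : ℕ)
  (N : Nodes P m) (f : PowerSeries 𝕂), f ∈ MM C N ↔
    (∀ x : P, x ≠ N.o → (∀ i, x ≠ N.p i) → (∀ i, x ≠ N.q i) → ∀ (k : ℕ) (l : ℤ), l < 0 →
      (C.E x (PowerSeries.coeff k f)).coeff l = 0) ∧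
    ∀ i, (∀ (k : ℕ) (l : ℤ), l < -(k : ℤ) → (C.E (N.p i) (PowerSeries.coeff k f)).coeff l = 0) ∧
      (∀ (k : ℕ) (l : ℤ), l < -(k : ℤ) → (C.E (N.q i) (PowerSeries.coeff k f)).coeff l = 0) ∧
      ∀ a b : ℕ, (C.E (N.p i) (PowerSeries.coeff b f)).coeff ((a : ℤ) - b) =
        (C.E (N.q i) (PowerSeries.coeff a f)).coeff ((b : ℤ) - a)

/-- **SM2** (constants) -/
def S_oh : Prop := ∀ (F 𝕂 P : Type) [Field F] [Field 𝕂] [Algebra F 𝕂] (C : Crv F 𝕂 P) (m : ℕ)
  (N : Nodes P m) (c : PowerSeries F), oh F 𝕂 c ∈ MM C N ∧ Bd C N 0 (oh F 𝕂 c) ∧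
    (∀ x, C.EvL x (oh F 𝕂 c) = P7.th F (uv F c)) ∧ swp (uv F c) = uv F c ∧
    ∀ k : ℤ, cinf C N (oh F 𝕂 c) k = if k = 0 then c else 0

/-- **SM3** (Riemann-Roch gives functions with prescribed coefficients).  Proof: the linear map
`L(D) → F^(r (k+1))`, `f ↦ (E_{x i} f).coeff (l - D (x i))`, has the kernel `L(D - (k+1) ∑ x i)`; by RR
both dimensions are known (for `r = 0` there is nothing to prove; otherwise
`deg D + 1 - h ≥ h + 1 > 0`, so `L(D)` is finite dimensional by `Module.finite_of_finrank_pos`) and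
the difference is `r (k+1)`, so the map is onto. -/
def S_sur : Prop := ∀ (F 𝕂 P : Type) [Field F] [Field 𝕂] [Algebra F 𝕂] (C : Crv F 𝕂 P) (h : ℕ)
  (_ : C.RR h) (r k : ℕ) (x : Fin r → P) (_ : Function.Injective x) (D : P →₀ ℤ)
  (_ : 2 * (h : ℤ) ≤ (D.sum fun _ k => k) - r * (k + 1) + 1) (c : Fin r → Fin (k + 1) → F),
  ∃ f ∈ C.L D, ∀ (i : Fin r) (l : Fin (k + 1)), (C.E (x i) f).coeff (((l : ℕ) : ℤ) - D (x i)) = c i l

/-- **SM4** (lifting).  Proof: construct `f_k` one after the other (`P2.exists_seq` or a strong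
recursion): given `f_a`, `a < k`, with the relations of `S_mem` for `a, b < k`, use `S_sur` with
`D = n o + k ∑ nodes` and all the `2 m` nodes (`r = 2 m`, the same `k`) to get `f_k ∈ L(D)` with
`(E_{p i} f_k).coeff (a - k) = (E_{q i} f_a).coeff (k - a)` and
`(E_{q i} f_k).coeff (a - k) = (E_{p i} f_a).coeff (k - a)` for `a < k`, and
`(E_{p i} f_k).coeff 0 = (E_{q i} f_k).coeff 0 = 0`. -/
def S_lift : Prop := ∀ (F 𝕂 P : Type) [Field F] [Field 𝕂] [Algebra F 𝕂] (C : Crv F 𝕂 P) (h : ℕ)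
  (_ : C.RR h) (m : ℕ) (N : Nodes P m) (n : ℕ) (_ : 2 * (h + m) ≤ n + 1) (f₀ : 𝕂)
  (_ : f₀ ∈ C.L (nO N n)) (_ : ∀ i, (C.E (N.p i) f₀).coeff 0 = (C.E (N.q i) f₀).coeff 0),
  ∃ f ∈ MM C N, Bd C N n f ∧ PowerSeries.coeff 0 f = f₀

/-- **SM5** (division by `t`).  By `S_mem`: if `f_0 = 0` then `(E_{p i} f_b).coeff (-b) = 0` and
`(E_{q i} f_a).coeff (-a) = 0`; put `f'_k = f_(k+1)`. -/
def S_div : Prop := ∀ (F 𝕂 P : Type) [Field F] [Field 𝕂] [Algebra F 𝕂] (C : Crv F 𝕂 P) (m : ℕ)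
  (N : Nodes P m) (n : ℕ) (f : PowerSeries 𝕂) (_ : f ∈ MM C N) (_ : Bd C N n f)
  (_ : PowerSeries.coeff 0 f = 0), ∃ f' ∈ MM C N, Bd C N n f' ∧ f = PowerSeries.X * f'

/-- **SM6** (basis of the lattice of the functions with poles of order at most `n`); compare the
library file `P4.lean`, `exists_basis`.  `V = {f_0 : f ∈ MM, Bd n f}` is contained in `L(n o)`, which is
finite dimensional (contained in `L(n' o)` for large `n'`, use RR); take a basis of `V` and lifts `e x`;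
the spanning statement follows from `S_div` by successive approximation.  For `2 (h + m) ≤ n + 1`,
`V = {f_0 ∈ L(n o) : f_0 (p i) = f_0 (q i)}` by `S_lift`, of dimension `n + 1 - h - m` by `S_sur`
(`D = n o`, `k = 0`, all the `2 m` nodes). -/
def S_basis : Prop := ∀ (F 𝕂 P : Type) [Field F] [Field 𝕂] [Algebra F 𝕂] (C : Crv F 𝕂 P) (h : ℕ)
  (_ : C.RR h) (m : ℕ) (N : Nodes P m) (n : ℕ), ∃ (r : ℕ) (e : Fin r → PowerSeries 𝕂),
    (∀ x, e x ∈ MM C N ∧ Bd C N n (e x)) ∧ LinearIndependent F (fun x => PowerSeries.coeff 0 (e x)) ∧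
    (∀ f ∈ MM C N, Bd C N n f → ∃ o : Fin r → PowerSeries F, ∑ x, oh F 𝕂 (o x) * e x = f) ∧
    (2 * (h + m) ≤ n + 1 → r = n + 1 - (h + m))

/-- **SM7** (the expansion at infinity as a ring homomorphism); compare `exists_chi` in the library
file `P5.lean` and `exists_chiR` in `P6.lean`. -/
def S_chi : Prop := ∀ (F 𝕂 P : Type) [Field F] [Field 𝕂] [Algebra F 𝕂] (C : Crv F 𝕂 P) (m : ℕ)
  (N : Nodes P m) (K : Type) [Field K] [Algebra (PowerSeries F) K] [IsFractionRing (PowerSeries F) K],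
  ∃ χ : MB C N →+* RK K C N,
    (∀ (f : MB C N) (k : ℤ), ((χ f : RK K C N) : LaurentSeries K).coeff k =
      algebraMap (PowerSeries F) K (cinf C N f k)) ∧
    Function.Injective χ ∧
    (∀ (o : PowerSeries F) (ho : oh F 𝕂 o ∈ MB C N), χ ⟨oh F 𝕂 o, ho⟩ =
      algebraMap K (RK K C N) (algebraMap (PowerSeries F) K o)) ∧
    (∀ z : RK K C N, ∃ (n : ℕ) (f : MB C N),
      algebraMap K (RK K C N) (algebraMap (PowerSeries F) K (PowerSeries.X ^ n)) * z = χ f)

/-- **SM8** (basis over the fraction field); compare `exists_basis_RK` in the library file `P6.lean` -/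
def S_basisRK : Prop := ∀ (F 𝕂 P : Type) [Field F] [Field 𝕂] [Algebra F 𝕂] (C : Crv F 𝕂 P) (h : ℕ)
  (_ : C.RR h) (m : ℕ) (N : Nodes P m) (K : Type) [Field K] [Algebra (PowerSeries F) K]
  [IsFractionRing (PowerSeries F) K] (n : ℕ), ∃ (r : ℕ) (e : Fin r → MB C N)
    (B : Module.Basis (Fin r) K (Lp (RK K C N) n)),
    (∀ x, Bd C N n (e x : PowerSeries 𝕂)) ∧
    (∀ x k, ((B x : RK K C N) : LaurentSeries K).coeff k =
      algebraMap (PowerSeries F) K (cinf C N (e x) k)) ∧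
    LinearIndependent F (fun x => PowerSeries.coeff 0 (e x : PowerSeries 𝕂)) ∧
    (2 * (h + m) ≤ n + 1 → r = n + 1 - (h + m))

/-- **SM9** (the smoothing is normal); compare the library file `P7.lean`: an element of the fraction
field of `MB` which is integral over `MB` lies in `𝕂[[t]]` (integrally closed), hence the conditions
at all the places follow from `P7.exists_of_integral` with `θ = P7.th F`: at a place `x` which is not
a node apply `C.Ec x`; at a node apply `C.EvL (p i)` and `C.EvL (q i)` and cancel; at infinity as in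
`P7.bounded`.  From `MB` to `RK` as in `P7.RK_closed`. -/
def S_normal : Prop := ∀ (F 𝕂 P : Type) [Field F] [Field 𝕂] [Algebra F 𝕂] (C : Crv F 𝕂 P) (m : ℕ)
  (N : Nodes P m) (K : Type) [Field K] [Algebra (PowerSeries F) K] [IsFractionRing (PowerSeries F) K],
  IsIntegrallyClosed (RK K C N)

/-- **SM10** (limit of the condition along the diagonal).  `FV_of_mem` (library file `P21.lean`) gives
`sj (RK) j G = 0` for `j < γ`; the coefficient of `w ^ k` of this identity is a finite sum of images of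
elements of `F[[t]]` (all the poles are bounded by some `n`); put `t = 0`. -/
def S_FV : Prop := ∀ (F 𝕂 P : Type) [Field F] [Field 𝕂] [Algebra F 𝕂] (C : Crv F 𝕂 P) (m : ℕ)
  (N : Nodes P m) (K : Type) [Field K] [Algebra (PowerSeries F) K] [IsFractionRing (PowerSeries F) K]
  (r : ℕ) (e : Fin r → MB C N) (E : Fin r → RK K C N)
  (_ : ∀ x k, (E x : LaurentSeries K).coeff k = algebraMap (PowerSeries F) K (cinf C N (e x) k))
  (o : Fin r → Fin r → PowerSeries F) (γ : ℕ)
  (_ : ∑ x, ∑ y, algebraMap (PowerSeries F) K (o x y) • (E x ⊗ₜ[K] E y) ∈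
    (KaehlerDifferential.ideal K (RK K C N)) ^ γ) (j : ℕ) (_ : j < γ),
  ∑ x, ∑ y, HahnSeries.C (PowerSeries.coeff 0 (o x y)) *
    LaurentSeries.hasseDeriv F j (C.E N.o (PowerSeries.coeff 0 (e x : PowerSeries 𝕂))) *
    C.E N.o (PowerSeries.coeff 0 (e y : PowerSeries 𝕂)) = 0

/-- **SM11** (multiplicity at a node, general form).  Adapt the library file `P12.lean`: for `β ≠ 0`
let `ps = (substitution u ↦ z, v ↦ β s) ∘ ev : M → F[[z]][[s]]`, i.e. coefficient of `s^k z^n` of `ps f` is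
`β^k * (coefficient of u^n v^k of ev f)`, `ψ₁ = ps`, `ψ₂ = swp ∘ ps`, `κ o = o(β z s)`,
`π = C X - X` (`diag_prime`, `diag_dvd`), and apply `P11.aux`; then put `s = 0`: the power series
`∑ o_xy(0) (ev e_x)(z, 0) (ev e_y)(0, β z)` is divisible by `z^γ`.  Its coefficient of `z^d`, `d < γ`, is
`∑_{a+b=d} c_ab β^b = 0` for all `β ≠ 0`; as `F` is infinite, all the `c_ab` are zero. -/
def S_nd0 : Prop := ∀ (F : Type) [Field F] [Infinite F] (K : Type) [Field K]
  [Algebra (PowerSeries F) K] [IsFractionRing (PowerSeries F) K] (M R : Type) [CommRing M]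
  [CommRing R] [Algebra K R] (O : PowerSeries F → M) (χ : M →+* R) (_ : Function.Injective χ)
  (_ : ∀ o : PowerSeries F, χ (O o) = algebraMap K R (algebraMap (PowerSeries F) K o))
  (_ : ∀ z : R, ∃ (n : ℕ) (f : M),
    algebraMap K R (algebraMap (PowerSeries F) K (PowerSeries.X ^ n)) * z = χ f)
  (ev : M →+* PowerSeries (PowerSeries F)) (_ : ∀ o, ev (O o) = uv F o)
  (r : ℕ) (e : Fin r → M) (o : Fin r → Fin r → PowerSeries F) (γ : ℕ)
  (_ : ∑ x, ∑ y, algebraMap (PowerSeries F) K (o x y) • (χ (e x) ⊗ₜ[K] χ (e y)) ∈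
    (KaehlerDifferential.ideal K R) ^ γ) (a b : ℕ) (_ : a + b < γ),
  ∑ x, ∑ y, PowerSeries.coeff 0 (o x y) *
    PowerSeries.coeff a (PowerSeries.coeff 0 (ev (e x))) *
    PowerSeries.coeff 0 (PowerSeries.coeff b (ev (e y))) = 0

/-- **SM12** (multiplicity at the nodes), from `S_nd0`, `S_chi`, `S_oh`, `S_mem`: the ring homomorphism
`ev : MB → F[[u]][[v]]` with `th (ev f) = EvL(p i) f` (`th` is injective), and `swp ∘ ev`. -/
def S_nd : Prop := ∀ (F 𝕂 P : Type) [Field F] [Infinite F] [Field 𝕂] [Algebra F 𝕂] (C : Crv F 𝕂 P)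
  (m : ℕ) (N : Nodes P m) (K : Type) [Field K] [Algebra (PowerSeries F) K]
  [IsFractionRing (PowerSeries F) K]
  (r : ℕ) (e : Fin r → MB C N) (E : Fin r → RK K C N)
  (_ : ∀ x k, (E x : LaurentSeries K).coeff k = algebraMap (PowerSeries F) K (cinf C N (e x) k))
  (o : Fin r → Fin r → PowerSeries F) (γ : ℕ)
  (_ : ∑ x, ∑ y, algebraMap (PowerSeries F) K (o x y) • (E x ⊗ₜ[K] E y) ∈
    (KaehlerDifferential.ideal K (RK K C N)) ^ γ) (i : Fin m) (a b : ℕ) (_ : a + b < γ),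
  (∑ x, ∑ y, PowerSeries.coeff 0 (o x y) *
    (C.E (N.p i) (PowerSeries.coeff 0 (e x : PowerSeries 𝕂))).coeff a *
    (C.E (N.q i) (PowerSeries.coeff 0 (e y : PowerSeries 𝕂))).coeff b = 0) ∧
  (∑ x, ∑ y, PowerSeries.coeff 0 (o x y) *
    (C.E (N.q i) (PowerSeries.coeff 0 (e x : PowerSeries 𝕂))).coeff a *
    (C.E (N.p i) (PowerSeries.coeff 0 (e y : PowerSeries 𝕂))).coeff b = 0)

/-- **SM13** (the smoothing theorem), from `S_basisRK`, `S_normal`, `S_FV`, `S_nd`; compare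
`P14.limit_aux` and `P14.exists_scale` in the library. -/
def S_SM : Prop := ∀ (F 𝕂 P : Type) [Field F] [Infinite F] [Field 𝕂] [Algebra F 𝕂] (C : Crv F 𝕂 P)
  (h : ℕ) (_ : C.RR h) (m : ℕ) (N : Nodes P m) (K : Type) [Field K] [Algebra (PowerSeries F) K]
  [IsFractionRing (PowerSeries F) K] (Pr : ℕ → ℕ → Prop)
  (_ : ∀ (n γ : ℕ) (G : 𝕂 ⊗[F] 𝕂), G ≠ 0 →
    G ∈ LinearMap.range (TensorProduct.map (C.L (nO N n)).subtype (C.L (nO N n)).subtype) →
    (∀ j < γ, sjE C N.o j G = 0) →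
    (∀ (i : Fin m) (a b : ℕ), a + b < γ →
      nn C (N.p i) (N.q i) a b G = 0 ∧ nn C (N.q i) (N.p i) a b G = 0) → Pr n γ),
  IsSmoothCurve (RK K C N) (h + m) ∧ DiagProp (RK K C N) Pr ∧
    ∀ n, FiniteDimensional K (Lp (RK K C N) n)

end statements

end Pool.Agent.H369.SM
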